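import Pool.Agent.H90.WC.BfReal

/-!
Hyperbolic elements in the stabiliser of a compact circle (problem MP_90715c_gt, module F2).
-/

open Matrix Set Filter Topology

namespace Pool.Agent.H90.WC

namespace F2

/-- The real elements of `q⁻¹ Γ q`. -/
def T0 (Γ : Subgroup G) (q : G) : Subgroup G where
  carrier := {t | IsReal t ∧ ∃ γ ∈ Γ, q⁻¹ * γ * q = t}
  mul_mem' := by
    rintro a b ⟨ha, γ, hγ, rfl⟩ ⟨hb, δ, hδ, rfl⟩
    exact ⟨ha.mul hb, γ * δ, Γ.mul_mem hγ hδ, by group⟩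
  one_mem' := ⟨IsReal.one, 1, Γ.one_mem, by group⟩
  inv_mem' := by
    rintro a ⟨ha, γ, hγ, rfl⟩
    exact ⟨ha.inv, γ⁻¹, Γ.inv_mem hγ, by group⟩

lemma re_mul_00 {g h : G} (hg : IsReal g) :
    ((g * h) 0 0).re = (g 0 0).re * (h 0 0).re + (g 0 1).re * (h 1 0).re := by
  rw [isReal_iff] at hg
  obtain ⟨g0, g1, g2, g3⟩ := hg
  simp only [mul_00, Complex.add_re, Complex.mul_re, g0, g1]
  ring

lemma re_mul_01 {g h : G} (hg : IsReal g) :
    ((g * h) 0 1).re = (g 0 0).re * (h 0 1).re + (g 0 1).re * (h 1 1).re := by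
  rw [isReal_iff] at hg
  obtain ⟨g0, g1, g2, g3⟩ := hg
  simp only [mul_01, Complex.add_re, Complex.mul_re, g0, g1]
  ring

lemma re_mul_10 {g h : G} (hg : IsReal g) :
    ((g * h) 1 0).re = (g 1 0).re * (h 0 0).re + (g 1 1).re * (h 1 0).re := by
  rw [isReal_iff] at hg
  obtain ⟨g0, g1, g2, g3⟩ := hg
  simp only [mul_10, Complex.add_re, Complex.mul_re, g2, g3]
  ring

lemma re_mul_11 {g h : G} (hg : IsReal g) :
    ((g * h) 1 1).re = (g 1 0).re * (h 0 1).re + (g 1 1).re * (h 1 1).re := by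
  rw [isReal_iff] at hg
  obtain ⟨g0, g1, g2, g3⟩ := hg
  simp only [mul_11, Complex.add_re, Complex.mul_re, g2, g3]
  ring

lemma re_inv_00 (g : G) : (g⁻¹ 0 0).re = (g 1 1).re := by rw [inv_00]
lemma re_inv_01 (g : G) : (g⁻¹ 0 1).re = -(g 0 1).re := by rw [inv_01, Complex.neg_re]
lemma re_inv_10 (g : G) : (g⁻¹ 1 0).re = -(g 1 0).re := by rw [inv_10, Complex.neg_re]
lemma re_inv_11 (g : G) : (g⁻¹ 1 1).re = (g 0 0).re := by rw [inv_11]

lemma ofReal_entry {g : G} (hg : IsReal g) (i j : Fin 2) : (((g i j).re : ℝ) : ℂ) = g i j := by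
  apply Complex.ext
  · simp
  · simp [hg i j]

/-- The trace of a real matrix. -/
noncomputable def tr (g : G) : ℝ := (g 0 0).re + (g 1 1).re

lemma tr_conj {u t : G} (hu : IsReal u) (ht : IsReal t) : tr (u * t * u⁻¹) = tr t := by
  have hd := hu.det
  unfold tr
  rw [re_mul_00 (hu.mul ht), re_mul_11 (hu.mul ht), re_mul_00 hu, re_mul_01 hu, re_mul_10 hu,
    re_mul_11 hu, re_inv_00, re_inv_01, re_inv_10, re_inv_11]
  linear_combination ((t 0 0).re + (t 1 1).re) * hd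

lemma trace_conj (q v : G) :
    (q * v * q⁻¹) 0 0 + (q * v * q⁻¹) 1 1 = v 0 0 + v 1 1 := by
  simp only [mul_00, mul_01, mul_10, mul_11, inv_00, inv_01, inv_10, inv_11]
  linear_combination (v 0 0 + v 1 1) * det_eq q

/-- Bounded entries on compact sets. -/
lemma exists_bound {C : Set G} (hC : IsCompact C) :
    ∃ M : ℝ, 0 < M ∧ ∀ c ∈ C, ∀ i j, |(c i j).re| ≤ M := by
  have h : ∀ i j : Fin 2, ∃ M : ℝ, ∀ c ∈ C, ‖c i j‖ ≤ M := fun i j =>
    hC.exists_bound_of_continuousOn (continuous_entry i j).continuousOn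
  choose M hM using h
  refine ⟨|M 0 0| + |M 0 1| + |M 1 0| + |M 1 1| + 1, by positivity, ?_⟩
  intro c hc i j
  have h1 : |(c i j).re| ≤ ‖c i j‖ := Complex.abs_re_le_norm _
  have h2 := hM i j c hc
  have h3 : M i j ≤ |M i j| := le_abs_self _
  have a0 := abs_nonneg (M 0 0)
  have a1 := abs_nonneg (M 0 1)
  have a2 := abs_nonneg (M 1 0)
  have a3 := abs_nonneg (M 1 1)
  fin_cases i <;> fin_cases j <;> simp only [Fin.zero_eta, Fin.mk_one, Fin.isValue] at * <;>
    linarith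

instance firstCountable_matrix : FirstCountableTopology (Matrix (Fin 2) (Fin 2) ℂ) :=
  inferInstanceAs (FirstCountableTopology (Fin 2 → Fin 2 → ℂ))

lemma firstCountable_G : FirstCountableTopology G :=
  (Matrix.SpecialLinearGroup.isClosedEmbedding_val (n := Fin 2)
    (R := ℂ)).isInducing.firstCountableTopology

/-- A hyperbolic element exists. -/
lemma exists_tr {Γ : Subgroup G} {q : G} (hC : ∃ C : Set G, IsCompact C ∧
      ∀ s : G, IsReal s → ∃ γ ∈ Γ, IsReal (q⁻¹ * γ * q) ∧ q⁻¹ * γ * q * s ∈ C) :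
    ∃ t ∈ T0 Γ q, 2 < tr t := by
  obtain ⟨C, hc, hC⟩ := hC
  have := firstCountable_G
  have hpos : ∀ n : ℕ, ((n : ℝ) + 1) ≠ 0 := fun n => by positivity
  set s : ℕ → G := fun n => bR ((n : ℝ) + 1) 0 (hpos n) with hs
  have hex : ∀ n, ∃ t ∈ T0 Γ q, t * s n ∈ C := by
    intro n
    obtain ⟨γ, hγ, hr, hm⟩ := hC (s n) (isReal_bR _ _ _)
    exact ⟨_, ⟨hr, γ, hγ, rfl⟩, hm⟩
  choose t ht htC using hex
  obtain ⟨a, -, φ, hφ, hlim⟩ := hc.tendsto_subseq htC
  -- the quotients are close to the identity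
  have hq : Tendsto (fun p : ℕ × ℕ => ((t (φ p.1) * s (φ p.1))⁻¹ * (t (φ p.2) * s (φ p.2)) : G))
      (atTop ×ˢ atTop) (𝓝 (a⁻¹ * a)) := by
    have h1 : Tendsto (fun p : ℕ × ℕ => (t (φ p.1) * s (φ p.1) : G)) (atTop ×ˢ atTop) (𝓝 a) :=
      hlim.comp tendsto_fst
    have h2 : Tendsto (fun p : ℕ × ℕ => (t (φ p.2) * s (φ p.2) : G)) (atTop ×ˢ atTop) (𝓝 a) :=
      hlim.comp tendsto_snd
    exact h1.inv.mul h2
  rw [inv_mul_cancel] at hq
  rw [tendsto_iff] at hq
  have e00 := (Complex.continuous_re.tendsto _).comp (hq 0 0)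
  have e11 := (Complex.continuous_re.tendsto _).comp (hq 1 1)
  simp only [Matrix.SpecialLinearGroup.coe_one, Matrix.one_apply_eq, Complex.one_re] at e00 e11
  have hev : ∀ᶠ p : ℕ × ℕ in atTop ×ˢ atTop,
      (1 / 2 : ℝ) < (((t (φ p.1) * s (φ p.1))⁻¹ * (t (φ p.2) * s (φ p.2)) : G) 0 0).re ∧
      (1 / 2 : ℝ) < (((t (φ p.1) * s (φ p.1))⁻¹ * (t (φ p.2) * s (φ p.2)) : G) 1 1).re :=
    (e00.eventually (lt_mem_nhds (by norm_num))).and (e11.eventually (lt_mem_nhds (by norm_num)))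
  rw [prod_atTop_atTop_eq, eventually_atTop] at hev
  obtain ⟨⟨N1, N2⟩, hN⟩ := hev
  set N := max N1 N2 with hNdef
  set j : ℕ := max N (5 * (φ N + 1)) with hj
  have hjN : N ≤ j := le_max_left _ _
  have hj5 : 5 * (φ N + 1) ≤ φ j := (le_max_right _ _).trans (hφ.id_le j)
  obtain ⟨h00, h11⟩ := hN (N, j) ⟨le_max_left _ _, (le_max_right _ _).trans hjN⟩
  simp only at h00 h11
  set E : G := (t (φ N) * s (φ N))⁻¹ * (t (φ j) * s (φ j)) with hE
  refine ⟨(t (φ N))⁻¹ * t (φ j), (T0 Γ q).mul_mem ((T0 Γ q).inv_mem (ht _)) (ht _), ?_⟩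
  have hδ : (t (φ N))⁻¹ * t (φ j) = s (φ N) * E * (s (φ j))⁻¹ := by
    rw [hE]; group
  have hEr : IsReal E :=
    ((((ht (φ N)).1).mul (isReal_bR _ _ _)).inv).mul (((ht (φ j)).1).mul (isReal_bR _ _ _))
  have hsr : ∀ n, IsReal (s n) := fun n => isReal_bR _ _ _
  have s00 : ∀ n, (s n 0 0).re = (n : ℝ) + 1 := fun n => by
    rw [hs, bR_00, Complex.ofReal_re]
  have s01 : ∀ n, (s n 0 1).re = 0 := fun n => by
    rw [hs, bR_01, Complex.ofReal_re]
  have s10 : ∀ n, (s n 1 0).re = 0 := fun n => by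
    rw [hs, bR_10, Complex.zero_re]
  have s11 : ∀ n, (s n 1 1).re = ((n : ℝ) + 1)⁻¹ := fun n => by
    rw [hs, bR_11, ← Complex.ofReal_inv, Complex.ofReal_re]
  unfold tr
  rw [hδ, re_mul_00 ((hsr _).mul hEr), re_mul_11 ((hsr _).mul hEr), re_mul_00 (hsr _),
    re_mul_01 (hsr _), re_mul_10 (hsr _), re_mul_11 (hsr _), re_inv_00, re_inv_01, re_inv_10,
    re_inv_11, s00, s01, s10, s11, s00, s01, s10, s11]
  have hx : (0 : ℝ) < (φ N : ℝ) + 1 := by positivity
  have hy : (0 : ℝ) < (φ j : ℝ) + 1 := by positivity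
  have hxy : 5 * ((φ N : ℝ) + 1) ≤ (φ j : ℝ) + 1 := by
    have : (5 * ((φ N : ℝ) + 1)) ≤ (φ j : ℝ) := by exact_mod_cast hj5
    linarith
  have k1 : 0 < ((φ N : ℝ) + 1) * (E 0 0).re * ((φ j : ℝ) + 1)⁻¹ := by
    have : 0 < (E 0 0).re := by linarith
    positivity
  have k2 : 5 ≤ ((φ N : ℝ) + 1)⁻¹ * ((φ j : ℝ) + 1) := by
    rw [inv_mul_eq_div, le_div_iff₀ hx]
    exact hxy
  have k3 : 5 / 2 < ((φ N : ℝ) + 1)⁻¹ * (E 1 1).re * ((φ j : ℝ) + 1) := by
    have e : ((φ N : ℝ) + 1)⁻¹ * (E 1 1).re * ((φ j : ℝ) + 1)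
        = (E 1 1).re * (((φ N : ℝ) + 1)⁻¹ * ((φ j : ℝ) + 1)) := by ring
    rw [e]
    nlinarith
  nlinarith

/-- Some hyperbolic element does not fix infinity. -/
lemma exists_tr_ne {Γ : Subgroup G} {q : G}
    (hnp : ∀ γ ∈ Γ, (γ 0 0 + γ 1 1) ^ 2 = 4 → γ = 1 ∨ γ = -1)
    (hC : ∃ C : Set G, IsCompact C ∧
      ∀ s : G, IsReal s → ∃ γ ∈ Γ, IsReal (q⁻¹ * γ * q) ∧ q⁻¹ * γ * q * s ∈ C) :
    ∃ t ∈ T0 Γ q, 2 < |tr t| ∧ (t 1 0).re ≠ 0 := by
  by_contra hcon
  have hA : ∀ t ∈ T0 Γ q, 2 < |tr t| → (t 1 0).re = 0 := by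
    intro t ht h2
    by_contra h0
    exact hcon ⟨t, ht, h2, h0⟩
  obtain ⟨t0, ht0, htr⟩ := exists_tr hC
  have hrt0 : IsReal t0 := ht0.1
  have hc0 : (t0 1 0).re = 0 := hA t0 ht0 (htr.trans_le (le_abs_self _))
  have hdet0 := hrt0.det
  rw [hc0, mul_zero, sub_zero] at hdet0
  set a := (t0 0 0).re with ha
  set b := (t0 0 1).re with hb
  set d := (t0 1 1).re with hd
  have htr' : 2 < a + d := htr
  have hD : a - d ≠ 0 := by
    intro h0
    have : a = d := by linarith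
    rw [this] at htr' hdet0
    nlinarith
  -- relation for the conjugates
  have hrel : ∀ u ∈ T0 Γ q, (u 1 0).re * ((u 1 1).re * (a - d) - (u 1 0).re * b) = 0 := by
    intro u hu
    have h1 : u * t0 * u⁻¹ ∈ T0 Γ q := (T0 Γ q).mul_mem ((T0 Γ q).mul_mem hu ht0)
      ((T0 Γ q).inv_mem hu)
    have h2 : ((u * t0 * u⁻¹) 1 0).re = 0 := by
      apply hA _ h1
      rw [tr_conj hu.1 hrt0]
      exact htr.trans_le (le_abs_self _)
    rw [re_mul_10 (hu.1.mul hrt0), re_mul_10 hu.1, re_mul_11 hu.1, re_inv_00, re_inv_10, hc0,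
      ← ha, ← hb, ← hd] at h2
    linarith
  -- upper triangular elements commute with `t0`
  have hcom : ∀ u ∈ T0 Γ q, (u 1 0).re = 0 →
      (u 0 1).re * (a - d) = b * ((u 0 0).re - (u 1 1).re) := by
    intro u hu h0
    have hud := hu.1.det
    rw [h0, mul_zero, sub_zero] at hud
    set v : G := u * t0 * u⁻¹ * t0⁻¹ with hv
    have hvT : v ∈ T0 Γ q := (T0 Γ q).mul_mem ((T0 Γ q).mul_mem ((T0 Γ q).mul_mem hu ht0)
      ((T0 Γ q).inv_mem hu)) ((T0 Γ q).inv_mem ht0)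
    have hut := hu.1.mul hrt0
    have huti := hut.mul hu.1.inv
    have v00 : (v 0 0).re = 1 := by
      rw [hv, re_mul_00 huti, re_mul_00 hut, re_mul_01 hut, re_mul_00 hu.1, re_mul_01 hu.1,
        re_inv_00, re_inv_01, re_inv_10, re_inv_11, re_inv_00, re_inv_10, hc0, h0, ← ha, ← hb,
        ← hd]
      linear_combination (a * d) * hud + hdet0
    have v11 : (v 1 1).re = 1 := by
      rw [hv, re_mul_11 huti, re_mul_10 hut, re_mul_11 hut, re_mul_10 hu.1, re_mul_11 hu.1,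
        re_inv_00, re_inv_01, re_inv_10, re_inv_11, re_inv_01, re_inv_11, hc0, h0, ← ha, ← hb,
        ← hd]
      linear_combination (a * d) * hud + hdet0
    obtain ⟨hvr, γ, hγ, hγv⟩ := hvT
    have htrγ : γ 0 0 + γ 1 1 = 2 := by
      have e : γ = q * v * q⁻¹ := by rw [← hγv]; group
      have hv00 : v 0 0 = 1 := by rw [← ofReal_entry hvr, v00]; simp
      have hv11 : v 1 1 = 1 := by rw [← ofReal_entry hvr, v11]; simp
      rw [e, trace_conj, hv00, hv11]
      norm_num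
    have hv1 : v = 1 := by
      rcases hnp γ hγ (by rw [htrγ]; norm_num) with h1 | h1
      · rw [← hγv, h1]; group
      · exfalso
        have : v = -1 := by rw [← hγv, h1]; simp
        rw [this] at v00
        simp at v00
        norm_num at v00
    have hcm : u * t0 = t0 * u := by
      have : u * t0 * u⁻¹ * t0⁻¹ = 1 := hv1
      rw [mul_inv_eq_one] at this
      rw [mul_inv_eq_iff_eq_mul] at this
      exact this
    have h01 : ((u * t0) 0 1).re = ((t0 * u) 0 1).re := by rw [hcm]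
    rw [re_mul_01 hu.1, re_mul_01 hrt0, ← ha, ← hb, ← hd] at h01
    linarith
  obtain ⟨C, hc, hC⟩ := hC
  obtain ⟨M, hM0, hM⟩ := exists_bound hc
  set x1 : ℝ := b / (a - d) with hx1
  have hb1 : b = x1 * (a - d) := by rw [hx1]; field_simp
  set y : ℝ := M ^ 2 + 2 * M ^ 2 * |x1| + M ^ 2 * (1 + |x1|) + |x1| + 1 with hy
  obtain ⟨γ, hγ, hr, hm⟩ := hC (bR 1 y one_ne_zero) (isReal_bR _ _ _)
  set u : G := q⁻¹ * γ * q with hu
  have huT : u ∈ T0 Γ q := ⟨hr, γ, hγ, rfl⟩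
  have hud := hr.det
  have e00 := hM _ hm 0 0
  have e01 := hM _ hm 0 1
  have e10 := hM _ hm 1 0
  have e11 := hM _ hm 1 1
  rw [re_mul_00 hr, bR_00, bR_10] at e00
  rw [re_mul_01 hr, bR_01, bR_11] at e01
  rw [re_mul_10 hr, bR_00, bR_10] at e10
  rw [re_mul_11 hr, bR_01, bR_11] at e11
  simp only [Complex.ofReal_re, Complex.ofReal_one, Complex.one_re, inv_one, mul_one,
    Complex.zero_re, mul_zero, add_zero] at e00 e01 e10 e11
  have hax := abs_nonneg x1
  have hy1 : M ^ 2 + 2 * M ^ 2 * |x1| < y := by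
    have : 0 ≤ M ^ 2 * (1 + |x1|) := by positivity
    linarith
  have hy2 : M ^ 2 * (1 + |x1|) + |x1| < y := by
    have : 0 ≤ M ^ 2 + 2 * M ^ 2 * |x1| := by positivity
    linarith
  have hy0 : 0 < y := by
    have : 0 ≤ M ^ 2 + 2 * M ^ 2 * |x1| := by positivity
    linarith
  clear_value y
  generalize hp : (u 0 0).re = p at *
  generalize hq' : (u 0 1).re = q' at *
  generalize hr' : (u 1 0).re = r' at *
  generalize hs' : (u 1 1).re = s' at *
  by_cases h0 : r' = 0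
  · -- the element fixes infinity
    have k := hcom u huT (by rw [hr', h0])
    rw [hp, hq', hs', hb1] at k
    have k2 : q' = x1 * (p - s') := by
      have : (q' - x1 * (p - s')) * (a - d) = 0 := by linarith
      rcases mul_eq_zero.1 this with h | h
      · linarith
      · exact absurd h hD
    rw [h0, mul_zero, sub_zero] at hud
    rw [h0] at e10 e11
    simp only [zero_mul, zero_add] at e11
    have hyeq : y = s' * (p * y + q') - s' * q' := by
      linear_combination (-y) * hud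
    have b1 : |s' * (p * y + q')| ≤ M * M := by
      rw [abs_mul]; gcongr
    have b2 : |s' * q'| ≤ M * (|x1| * (2 * M)) := by
      rw [abs_mul, k2, abs_mul]
      gcongr
      have := abs_sub p s'
      linarith
    have b3 : |y| ≤ M * M + M * (|x1| * (2 * M)) := by
      rw [hyeq]
      exact (abs_sub _ _).trans (add_le_add b1 b2)
    have b4 := le_abs_self y
    nlinarith
  · have k1 := hrel u huT
    rw [hr', hs'] at k1
    have k2 : s' = r' * x1 := by
      rcases mul_eq_zero.1 k1 with h | h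
      · exact absurd h h0
      · rw [hb1] at h
        have : (s' - r' * x1) * (a - d) = 0 := by linarith
        rcases mul_eq_zero.1 this with h | h
        · linarith
        · exact absurd h hD
    have k3 := hrel u⁻¹ ((T0 Γ q).inv_mem huT)
    rw [re_inv_10, re_inv_11, hr', hp] at k3
    have k4 : p = -(r' * x1) := by
      rcases mul_eq_zero.1 k3 with h | h
      · exact absurd (neg_eq_zero.1 h) h0
      · rw [hb1] at h
        have : (p + r' * x1) * (a - d) = 0 := by linarith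
        rcases mul_eq_zero.1 this with h | h
        · linarith
        · exact absurd h hD
    have hw : |r' * (y + x1)| ≤ M := by
      rw [k2] at e11
      have : r' * y + r' * x1 = r' * (y + x1) := by ring
      rwa [this] at e11
    have hz : |r' * x1 ^ 2 + q'| ≤ M + |x1| * M := by
      have e : r' * x1 ^ 2 + q' = (p * y + q') + x1 * (r' * (y + x1)) := by
        rw [k4]; ring
      rw [e]
      refine (abs_add_le _ _).trans (add_le_add e01 ?_)
      rw [abs_mul]; gcongr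
    have hone : y + x1 = -((r' * (y + x1)) * (r' * x1 ^ 2 + q')) := by
      rw [k4, k2] at hud
      linear_combination (-(y + x1)) * hud
    have b1 : |y + x1| ≤ M * (M + |x1| * M) := by
      rw [hone, abs_neg, abs_mul]
      gcongr
    have b2 : y - |x1| ≤ |y + x1| := by
      have h1 := neg_abs_le x1
      have h2 := le_abs_self (y + x1)
      linarith
    nlinarith

/-- A real matrix from four real numbers. -/
noncomputable def mk (a b c d : ℝ) (h : a * d - b * c = 1) : G :=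
  ⟨!![(a : ℂ), (b : ℂ); (c : ℂ), (d : ℂ)], by
    rw [Matrix.det_fin_two_of]; exact_mod_cast h⟩

@[simp] lemma mk_00 (a b c d : ℝ) (h : a * d - b * c = 1) : mk a b c d h 0 0 = a := rfl
@[simp] lemma mk_01 (a b c d : ℝ) (h : a * d - b * c = 1) : mk a b c d h 0 1 = b := rfl
@[simp] lemma mk_10 (a b c d : ℝ) (h : a * d - b * c = 1) : mk a b c d h 1 0 = c := rfl
@[simp] lemma mk_11 (a b c d : ℝ) (h : a * d - b * c = 1) : mk a b c d h 1 1 = d := rfl

lemma isReal_mk (a b c d : ℝ) (h : a * d - b * c = 1) : IsReal (mk a b c d h) := by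
  rw [isReal_iff]; simp

/-- Diagonalization of a hyperbolic real matrix. -/
lemma diagonal {t : G} (ht : IsReal t) (h2 : 2 < |tr t|) (h0 : (t 1 0).re ≠ 0) :
    ∃ r : G, IsReal r ∧ ∃ l : ℝ, 1 < l ∧ (r⁻¹ * t * r) 1 0 = 0 ∧ (r⁻¹ * t * r) 0 1 = 0 ∧
      ((r⁻¹ * t * r) 0 0) ^ 2 = (l : ℂ) ∧ r 1 0 ≠ 0 ∧ r 1 1 ≠ 0 := by
  have hdet := ht.det
  have htr : tr t = (t 0 0).re + (t 1 1).re := rfl
  generalize hT : tr t = T at *
  have e00 := ofReal_entry ht 0 0
  have e01 := ofReal_entry ht 0 1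
  have e10 := ofReal_entry ht 1 0
  have e11 := ofReal_entry ht 1 1
  generalize ha : (t 0 0).re = a at *
  generalize hb : (t 0 1).re = b at *
  generalize hc : (t 1 0).re = c at *
  generalize hd : (t 1 1).re = d at *
  have hdisc : 0 < T ^ 2 - 4 := by
    have : 2 ^ 2 < |T| ^ 2 := by gcongr
    rw [sq_abs] at this
    linarith
  -- the large eigenvalue
  obtain ⟨x, hx, hx1⟩ : ∃ x : ℝ, x ^ 2 - T * x + 1 = 0 ∧ 1 < x ^ 2 := by
    set w := Real.sqrt (T ^ 2 - 4) with hw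
    have hw0 : 0 < w := Real.sqrt_pos.2 hdisc
    have hw2 : w ^ 2 = T ^ 2 - 4 := Real.sq_sqrt hdisc.le
    rcases le_total 0 T with hT0 | hT0
    · rw [abs_of_nonneg hT0] at h2
      refine ⟨(T + w) / 2, by nlinarith, by nlinarith⟩
    · rw [abs_of_nonpos hT0] at h2
      refine ⟨(T - w) / 2, by nlinarith, by nlinarith⟩
  have hx0 : x ≠ 0 := by
    intro h
    rw [h] at hx1
    norm_num at hx1
  set m := T - x with hm
  have hxm : x * m = 1 := by rw [hm]; linarith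
  have hT' : m = a + d - x := by rw [hm, htr]
  have hxm' : x - m ≠ 0 := by
    intro h
    have : m = x := by linarith
    rw [this] at hxm
    nlinarith
  have hmm : m ^ 2 - T * m + 1 = 0 := by rw [hm]; nlinarith
  clear_value m
  set Δ := c * (x - m) with hΔ
  have hΔ0 : Δ ≠ 0 := mul_ne_zero h0 hxm'
  have hr : (x - d) * (c / Δ) - (m - d) / Δ * c = 1 := by
    field_simp
    rw [hΔ]; ring
  refine ⟨mk (x - d) ((m - d) / Δ) c (c / Δ) hr, isReal_mk _ _ _ _ _, x ^ 2, hx1, ?_, ?_, ?_,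
    ?_, ?_⟩
  · rw [mul_10, mul_10, mul_11, inv_10, inv_11, mk_00, mk_10, ← e00, ← e01, ← e10, ← e11]
    norm_cast
    have : ((-c * a + (x - d) * c) * (x - d) + (-c * b + (x - d) * d) * c : ℝ) = 0 := by
      linear_combination c * hdet + c * hx + c * x * (htr)
    exact this
  · rw [mul_01, mul_00, mul_01, inv_00, inv_01, mk_11, mk_01, ← e00, ← e01, ← e10, ← e11]
    norm_cast
    have : ((c / Δ * a + -((m - d) / Δ) * c) * ((m - d) / Δ)
        + (c / Δ * b + -((m - d) / Δ) * d) * (c / Δ) : ℝ) = 0 := by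
      field_simp
      linear_combination (-c) * hdet - c * hmm - c * m * (htr)
    exact this
  · have : (((mk (x - d) ((m - d) / Δ) c (c / Δ) hr)⁻¹ * t * mk (x - d) ((m - d) / Δ) c
        (c / Δ) hr) 0 0 : ℂ) = (x : ℂ) := by
      rw [mul_00, mul_00, mul_01, inv_00, inv_01, mk_11, mk_01, mk_00, mk_10, ← e00, ← e01,
        ← e10, ← e11]
      norm_cast
      have : ((c / Δ * a + -((m - d) / Δ) * c) * (x - d)
          + (c / Δ * b + -((m - d) / Δ) * d) * c : ℝ) = x := by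
        field_simp
        rw [hΔ]
        linear_combination (-c) * hdet + c * hxm - c * x * hT'
      exact this
    rw [this]
    norm_cast
  · rw [mk_10]
    exact_mod_cast h0
  · rw [mk_11]
    exact_mod_cast div_ne_zero h0 hΔ0

end F2

/-- `exists_hyperbolic` with `no_parabolic` as a hypothesis. -/
theorem exists_hyperbolic0 {Γ : Subgroup G}
    (hnp : ∀ γ ∈ Γ, (γ 0 0 + γ 1 1) ^ 2 = 4 → γ = 1 ∨ γ = -1)
    {S : Set G} {q : G} (hq : q ∈ S)
    (hC : ∃ C : Set G, IsCompact C ∧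
      ∀ s : G, IsReal s → ∃ γ ∈ Γ, IsReal (q⁻¹ * γ * q) ∧ q⁻¹ * γ * q * s ∈ C) :
    ∃ r : G, IsReal r ∧ ∃ g ∈ Γ, ∃ l : ℝ, 1 < l ∧
      (r⁻¹ * q⁻¹ * g * q * r) 1 0 = 0 ∧ (r⁻¹ * q⁻¹ * g * q * r) 0 1 = 0 ∧
      ((r⁻¹ * q⁻¹ * g * q * r) 0 0) ^ 2 = (l : ℂ) ∧
      ∃ s : G, IsReal s ∧ q * r * s ∈ S ∧ s 0 0 ≠ 0 ∧ s 1 0 ≠ 0 := by
  obtain ⟨t, ⟨htr, g, hg, rfl⟩, h2, h0⟩ := F2.exists_tr_ne hnp hC
  obtain ⟨r, hr, l, hl, h10, h01, h00, hr0, hr1⟩ := F2.diagonal htr h2 h0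
  have e : r⁻¹ * q⁻¹ * g * q * r = r⁻¹ * (q⁻¹ * g * q) * r := by group
  refine ⟨r, hr, g, hg, l, hl, ?_, ?_, ?_, r⁻¹, hr.inv, ?_, ?_, ?_⟩
  · rw [e]; exact h10
  · rw [e]; exact h01
  · rw [e]; exact h00
  · rw [mul_inv_cancel_right]; exact hq
  · rw [inv_00]; exact hr1
  · rw [inv_10]; exact neg_ne_zero.2 hr0

end Pool.Agent.H90.WC
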